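import Pool.Agent.H950.ON.St
import Pool.Agent.H950.ON.Pf.KcG

/-!
# Task O4 of the project ON: second differences of the number of clusters
-/

set_option autoImplicit false

namespace Pool.Agent.H345.ON

theorem nbr_symm (u v : Pool.Agent.X136.ON.Hx) (h : Pool.Agent.H950.ON.Nbr u v) :
    Pool.Agent.H950.ON.Nbr v u := by
  obtain ⟨e, h | h⟩ := h
  · exact ⟨e, Or.inr h⟩
  · exact ⟨e, Or.inl h⟩

theorem t_kc : Pool.Agent.H950.ON.S_kc := fun A u v hu hv huv =>
  second (R := Pool.Agent.H950.ON.Nbr) nbr_symm A u v hu hv huv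

end Pool.Agent.H345.ON
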