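import Pool.Agent.H950.ON.Pf.Conn

/-!
ON project of helper950, task O12: the main discrete theorem.
-/

set_option autoImplicit false

namespace Pool.Agent.H323.ON

open Pool.Agent.X136.ON Pool.Agent.H950.ON MeasureTheory TopologicalSpace

theorem Con_mono {A B : Set Hx} (h : A ⊆ B) {u v : Hx} (hc : Con A u v) : Con B u v := by
  refine Relation.ReflTransGen.mono ?_ _ _ hc
  rintro p q ⟨h1, h2, h3⟩
  exact ⟨h1, h h2, h h3⟩

theorem C_mono {D D' : TD} (h : D.Le D') {F F' : Finset Hx} (hc : D.pl F ⊆ D'.pl F') :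
    D.C F ⊆ D'.C F' := by
  rintro v ⟨u, hu, hr⟩
  refine ⟨u, ?_, Con_mono hc hr⟩
  have h1 : u.1 ≤ D.w u.2 := hu
  exact h1.trans (h.w u.2)

theorem R_mono {D D' : TD} (h : D.Le D') {F F' : Finset Hx} (hc : D.pl F ⊆ D'.pl F') :
    D.R F ⊆ D'.R F' := by
  rintro v hv ⟨u, hu, hr⟩
  refine hv ⟨u, ?_, Con_mono (Set.compl_subset_compl.2 (C_mono h hc)) hr⟩
  have h1 : D'.z u.2 ≤ u.1 := hu
  exact (h.z u.2).trans h1

/-- the two hexagons of an edge are close -/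
theorem near (e : Ed) : ((s1 e).1 - 1 ≤ (s2 e).1 ∧ (s2 e).1 ≤ (s1 e).1 + 1) ∧
    ((s1 e).2 - 1 ≤ (s2 e).2 ∧ (s2 e).2 ≤ (s1 e).2 + 1) := by
  obtain ⟨i, j, k⟩ := e
  cases k <;> simp only [s1, s2] <;> omega

/-- bounds for the edges of the path -/
theorem Gam_bounds {D : TD} {F : Finset Hx} {e : Ed} (he : e ∈ D.Gam F) {a b c d : ℤ}
    (ha : ∀ y, c ≤ y → y ≤ d → a ≤ D.w y) (hb : ∀ y, c ≤ y → y ≤ d → D.z y ≤ b)
    (hc : c ≤ D.lo) (hd : D.hi ≤ d) :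
    ((a ≤ (s1 e).1 ∧ (s1 e).1 ≤ b) ∧ (D.lo ≤ (s1 e).2 ∧ (s1 e).2 ≤ D.hi)) ∧
      ((a ≤ (s2 e).1 ∧ (s2 e).1 ≤ b) ∧ (D.lo ≤ (s2 e).2 ∧ (s2 e).2 ≤ D.hi)) := by
  obtain ⟨h1, -⟩ := he
  obtain ⟨⟨l1, l2⟩, ⟨l3, l4⟩, hW, hZ⟩ := D.mem_E.1 h1
  obtain ⟨⟨n1, n2⟩, n3, n4⟩ := near e
  have w1 := ha (s1 e).2 (by omega) (by omega)
  have w2 := ha (s2 e).2 (by omega) (by omega)
  have z1 := hb (s1 e).2 (by omega) (by omega)
  have z2 := hb (s2 e).2 (by omega) (by omega)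
  have hW' : ¬ ((s1 e).1 ≤ D.w (s1 e).2 ∧ (s2 e).1 ≤ D.w (s2 e).2) := hW
  have hZ' : ¬ (D.z (s1 e).2 ≤ (s1 e).1 ∧ D.z (s2 e).2 ≤ (s2 e).1) := hZ
  refine ⟨⟨⟨?_, ?_⟩, l1, l2⟩, ⟨?_, ?_⟩, l3, l4⟩ <;> omega

section prob

variable {D D' : TD} {n x : ℝ}

lemma wt_pos (hx : 0 < x) (hq : 1 ≤ n) (F : Finset Hx) : 0 < D.wt n x F := by
  unfold TD.wt weight
  have : 0 < n := by linarith
  positivity

lemma mu_nonneg (hx : 0 < x) (hq : 1 ≤ n) (F : Finset Hx) : 0 ≤ D.mu n x F := by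
  unfold TD.mu
  exact div_nonneg (wt_pos hx hq F).le (Finset.sum_nonneg fun G _ => (wt_pos hx hq G).le)

lemma mu_sum (hx : 0 < x) (hq : 1 ≤ n) : ∑ F ∈ D.ins.powerset, D.mu n x F = 1 := by
  unfold TD.mu
  rw [← Finset.sum_div]
  apply div_self
  apply ne_of_gt
  apply Finset.sum_pos (fun G _ => wt_pos hx hq G)
  exact ⟨∅, by simp⟩

lemma P_nonneg (hx : 0 < x) (hq : 1 ≤ n) (A : Finset Hx → Prop) : 0 ≤ D.P n x A := by
  unfold TD.P
  apply Finset.sum_nonneg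
  intro F _
  split_ifs
  · exact mu_nonneg hx hq F
  · exact le_rfl

lemma P_le_one (hx : 0 < x) (hq : 1 ≤ n) (A : Finset Hx → Prop) : D.P n x A ≤ 1 := by
  rw [← mu_sum (D := D) hx hq]
  unfold TD.P
  apply Finset.sum_le_sum
  intro F _
  split_ifs
  · exact le_rfl
  · exact mu_nonneg hx hq F

open Classical in
lemma P_fst {κ : Finset Hx → Finset Hx → ℝ} (h : Coup D D' n x κ) (A : Finset Hx → Prop) :
    D.P n x A = ∑ F ∈ D.ins.powerset, ∑ F' ∈ D'.ins.powerset, κ F F' * (if A F then 1 else 0) := by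
  unfold TD.P
  refine Finset.sum_congr rfl fun F hF => ?_
  rw [← Finset.sum_mul, h.fst F (Finset.mem_powerset.1 hF)]
  split_ifs <;> simp

open Classical in
lemma P_snd {κ : Finset Hx → Finset Hx → ℝ} (h : Coup D D' n x κ) (A : Finset Hx → Prop) :
    D'.P n x A = ∑ F ∈ D.ins.powerset, ∑ F' ∈ D'.ins.powerset, κ F F' * (if A F' then 1 else 0) := by
  rw [Finset.sum_comm]
  unfold TD.P
  refine Finset.sum_congr rfl fun F hF => ?_
  rw [← Finset.sum_mul, h.snd F (Finset.mem_powerset.1 hF)]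
  split_ifs <;> simp

lemma P_mono {κ : Finset Hx → Finset Hx → ℝ} (h : Coup D D' n x κ) {A B : Finset Hx → Prop}
    (hAB : ∀ F ⊆ D.ins, ∀ F' ⊆ D'.ins, κ F F' ≠ 0 → A F → B F') : D.P n x A ≤ D'.P n x B := by
  classical
  rw [P_fst h, P_snd h]
  apply Finset.sum_le_sum
  intro F hF
  apply Finset.sum_le_sum
  intro F' hF'
  rcases eq_or_ne (κ F F') 0 with h0 | h0
  · rw [h0]; simp
  · apply mul_le_mul_of_nonneg_left _ (h.nn F F')
    by_cases hA : A F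
    · rw [if_pos hA, if_pos (hAB F (Finset.mem_powerset.1 hF) F' (Finset.mem_powerset.1 hF') h0 hA)]
    · rw [if_neg hA]; split_ifs <;> norm_num

lemma P_mono' {κ : Finset Hx → Finset Hx → ℝ} (h : Coup D D' n x κ) {A B : Finset Hx → Prop}
    (hAB : ∀ F ⊆ D.ins, ∀ F' ⊆ D'.ins, κ F F' ≠ 0 → B F' → A F) : D'.P n x B ≤ D.P n x A := by
  classical
  rw [P_fst h, P_snd h]
  apply Finset.sum_le_sum
  intro F hF
  apply Finset.sum_le_sum
  intro F' hF'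
  rcases eq_or_ne (κ F F') 0 with h0 | h0
  · rw [h0]; simp
  · apply mul_le_mul_of_nonneg_left _ (h.nn F F')
    by_cases hB : B F'
    · rw [if_pos hB, if_pos (hAB F (Finset.mem_powerset.1 hF) F' (Finset.mem_powerset.1 hF') h0 hB)]
    · rw [if_neg hB]; split_ifs <;> norm_num

end prob

open Classical in
/-- the counting function -/
noncomputable def cf (D D' : TD) (r : ℤ) (F F' : Finset Hx) (z : ℤ × ℤ) : ℝ :=
  ((if hitR D' z r F' then 1 else 0) - (if hitR D z r F then 1 else 0)) +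
    ((if hitN D z r F then 1 else 0) - (if hitN D' z r F' then 1 else 0))

lemma hitR_mono {D D' : TD} {F F' : Finset Hx} (hR : D.R F ⊆ D'.R F') {r : ℤ} {z : ℤ × ℤ}
    (h : hitR D z r F) : hitR D' z r F' := by
  obtain ⟨u, hu, h2⟩ := h
  exact ⟨u, hR hu, h2⟩

lemma hitN_mono {D D' : TD} {F F' : Finset Hx} (hR : D.R F ⊆ D'.R F') {r : ℤ} {z : ℤ × ℤ}
    (h : hitN D' z r F') : hitN D z r F := by
  obtain ⟨u, hu, h2⟩ := h
  exact ⟨u, fun h3 => hu (hR h3), h2⟩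

lemma cf_nonneg {D D' : TD} {F F' : Finset Hx} (hR : D.R F ⊆ D'.R F')
    (r : ℤ) (z : ℤ × ℤ) : 0 ≤ cf D D' r F F' z := by
  have h1 : hitR D z r F → hitR D' z r F' := hitR_mono hR
  have h2 : hitN D' z r F' → hitN D z r F := hitN_mono hR
  unfold cf
  by_cases ha : hitR D z r F <;> by_cases hb : hitR D' z r F' <;> by_cases hc : hitN D z r F <;>
    by_cases hd : hitN D' z r F' <;> simp_all

lemma cf_one_R {D D' : TD} {F F' : Finset Hx} (hR : D.R F ⊆ D'.R F')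
    (r : ℤ) (z : ℤ × ℤ) (h1 : hitR D' z r F') (h2 : ¬ hitR D z r F) : 1 ≤ cf D D' r F F' z := by
  have h3 : hitN D' z r F' → hitN D z r F := hitN_mono hR
  unfold cf
  rw [if_pos h1, if_neg h2]
  by_cases hc : hitN D z r F <;> by_cases hd : hitN D' z r F' <;> simp_all

lemma cf_one_N {D D' : TD} {F F' : Finset Hx} (hR : D.R F ⊆ D'.R F')
    (r : ℤ) (z : ℤ × ℤ) (h1 : hitN D z r F) (h2 : ¬ hitN D' z r F') : 1 ≤ cf D D' r F F' z := by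
  have h3 : hitR D z r F → hitR D' z r F' := hitR_mono hR
  unfold cf
  rw [if_pos h1, if_neg h2]
  by_cases hc : hitR D z r F <;> by_cases hd : hitR D' z r F' <;> simp_all

lemma sq_le_sum {S : Finset (ℤ × ℤ)} {f : ℤ × ℤ → ℝ} (hf : ∀ z, 0 ≤ f z) {r : ℤ} (hr : 1 ≤ r)
    {p1 p2 : ℤ} (hS : Finset.Icc (p1 - r + 1) p1 ×ˢ Finset.Icc (p2 - r + 1) p2 ⊆ S)
    (h1 : ∀ z ∈ Finset.Icc (p1 - r + 1) p1 ×ˢ Finset.Icc (p2 - r + 1) p2, 1 ≤ f z) :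
    (r : ℝ) ^ 2 ≤ ∑ z ∈ S, f z := by
  have hcard : ((Finset.Icc (p1 - r + 1) p1 ×ˢ Finset.Icc (p2 - r + 1) p2).card : ℝ) =
      (r : ℝ) ^ 2 := by
    rw [Finset.card_product, Int.card_Icc, Int.card_Icc]
    have e1 : p1 + 1 - (p1 - r + 1) = r := by ring
    have e2 : p2 + 1 - (p2 - r + 1) = r := by ring
    rw [e1, e2]
    have : ((r.toNat : ℕ) : ℝ) = r := by
      have h2 : ((r.toNat : ℕ) : ℤ) = r := Int.toNat_of_nonneg (by omega)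
      exact_mod_cast h2
    push_cast
    rw [this]
    ring
  calc (r : ℝ) ^ 2 = ∑ z ∈ Finset.Icc (p1 - r + 1) p1 ×ˢ Finset.Icc (p2 - r + 1) p2, (1 : ℝ) := by
        rw [Finset.sum_const, nsmul_eq_mul, mul_one, hcard]
    _ ≤ ∑ z ∈ Finset.Icc (p1 - r + 1) p1 ×ˢ Finset.Icc (p2 - r + 1) p2, f z :=
        Finset.sum_le_sum h1
    _ ≤ _ := Finset.sum_le_sum_of_subset_of_nonneg hS fun z _ _ => hf z

/-- the hexagons of an edge of the path -/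
theorem two_sides {D : TD} {F : Finset Hx} {e : Ed} (he : e ∈ D.Gam F) : ∃ p q : Hx,
    p ∈ D.R F ∧ q ∉ D.R F ∧ ((p = s1 e ∧ q = s2 e) ∨ (p = s2 e ∧ q = s1 e)) := by
  have hne := he.2
  by_cases hs : s1 e ∈ D.R F
  · exact ⟨s1 e, s2 e, hs, fun ht => hne ⟨fun _ => ht, fun _ => hs⟩, Or.inl ⟨rfl, rfl⟩⟩
  · have ht : s2 e ∈ D.R F := by
      by_contra ht
      exact hne ⟨fun h => absurd h hs, fun h => absurd h ht⟩
    exact ⟨s2 e, s1 e, ht, hs, Or.inr ⟨rfl, rfl⟩⟩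

/-- the combinatorial part -/
lemma count (h8 : S_con) {D D' : TD} (h : D.Le D') {F F' : Finset Hx}
    (hF : F ⊆ D.ins) (hF' : F' ⊆ D'.ins) (hR : D.R F ⊆ D'.R F') {a b c d r : ℤ}
    (ha : ∀ y, c ≤ y → y ≤ d → a ≤ D.w y) (hb : ∀ y, c ≤ y → y ≤ d → D'.z y ≤ b)
    (hc1 : c ≤ D.lo) (hc2 : c ≤ D'.lo)
    (hd1 : D.hi ≤ d) (hd2 : D'.hi ≤ d) (hr : 1 ≤ r)
    (hbad : Bad D D' (2 * r + 3 + |D.hi - D'.hi| + |D.lo - D'.lo|) F F') :
    (r : ℝ) ^ 2 ≤ ∑ z ∈ Finset.Icc (a - r) b ×ˢ Finset.Icc (c - r) d, cf D D' r F F' z := by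
  have hnn := cf_nonneg hR r
  have hhi := abs_sub_le_iff.1 (le_refl |D.hi - D'.hi|)
  have hlo := abs_sub_le_iff.1 (le_refl |D.lo - D'.lo|)
  have hhi0 := abs_nonneg (D.hi - D'.hi)
  have hlo0 := abs_nonneg (D.lo - D'.lo)
  rcases hbad with ⟨e, he, hfar⟩ | ⟨e, he, hfar⟩
  · -- an edge of the path of `F`
    obtain ⟨⟨⟨b1, b2⟩, b3, b4⟩, ⟨b5, b6⟩, b7, b8⟩ := Gam_bounds he ha
      (fun y h1 h2 => (h.z y).trans (hb y h1 h2)) hc1 hd1
    obtain ⟨q, p, hq, hp, hpq⟩ := two_sides he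
    obtain ⟨⟨n1, n2⟩, n3, n4⟩ := near e
    obtain ⟨p1, p2, p3, p4, p5, p6, p7, p8, q1, q2, q3, q4⟩ : a ≤ p.1 ∧ p.1 ≤ b ∧ D.lo ≤ p.2 ∧
        p.2 ≤ D.hi ∧ (s1 e).1 - 1 ≤ p.1 ∧ p.1 ≤ (s1 e).1 + 1 ∧ (s1 e).2 - 1 ≤ p.2 ∧
        p.2 ≤ (s1 e).2 + 1 ∧ (s1 e).1 - 1 ≤ q.1 ∧ q.1 ≤ (s1 e).1 + 1 ∧ (s1 e).2 - 1 ≤ q.2 ∧
        q.2 ≤ (s1 e).2 + 1 := by
      rcases hpq with ⟨rfl, rfl⟩ | ⟨rfl, rfl⟩ <;> (refine ⟨?_, ?_, ?_, ?_, ?_, ?_, ?_, ?_, ?_, ?_, ?_, ?_⟩ <;> omega)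
    have hno : ¬ ∃ g, g ∉ D'.R F' ∧ ((s1 e).1 - r - 1 ≤ g.1 ∧ g.1 ≤ (s1 e).1 + r + 1) ∧
        ((s1 e).2 - r - 1 ≤ g.2 ∧ g.2 ≤ (s1 e).2 + r + 1) := by
      intro hex
      obtain ⟨e', he', ⟨g1, g2⟩, g3, g4⟩ := h8 D' F' hF' ((s1 e).1 - r - 1) ((s1 e).1 + r + 1)
        ((s1 e).2 - r - 1) ((s1 e).2 + r + 1) (r + 1 + |D.hi - D'.hi| + |D.lo - D'.lo|)
        (by omega) (by omega) (by omega)
        ⟨q, hR hq, ⟨by omega, by omega⟩, by omega, by omega⟩ hex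
      have h1 := hfar e' he'
      have h2 : sd (s1 e) (s1 e') ≤ 2 * r + 3 + |D.hi - D'.hi| + |D.lo - D'.lo| := by
        unfold sd
        apply max_le
        · rw [abs_le]; constructor <;> omega
        · rw [abs_le]; constructor <;> omega
      omega
    apply sq_le_sum hnn hr (p1 := p.1) (p2 := p.2)
    · intro z hz
      rw [Finset.mem_product, Finset.mem_Icc, Finset.mem_Icc] at hz ⊢
      refine ⟨⟨by omega, by omega⟩, by omega, by omega⟩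
    · intro z hz
      rw [Finset.mem_product, Finset.mem_Icc, Finset.mem_Icc] at hz
      apply cf_one_N hR
      · exact ⟨p, hp, ⟨by omega, by omega⟩, by omega, by omega⟩
      · rintro ⟨f, hf, ⟨e1, e2⟩, e3, e4⟩
        exact hno ⟨f, hf, ⟨by omega, by omega⟩, by omega, by omega⟩
  · -- an edge of the path of `F'`
    obtain ⟨⟨⟨b1, b2⟩, b3, b4⟩, ⟨b5, b6⟩, b7, b8⟩ := Gam_bounds he
      (fun y h1 h2 => (ha y h1 h2).trans (h.w y)) hb hc2 hd2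
    obtain ⟨p, q, hp, hq, hpq⟩ := two_sides he
    obtain ⟨⟨n1, n2⟩, n3, n4⟩ := near e
    obtain ⟨p1, p2, p3, p4, p5, p6, p7, p8, q1, q2, q3, q4⟩ : a ≤ p.1 ∧ p.1 ≤ b ∧ D'.lo ≤ p.2 ∧
        p.2 ≤ D'.hi ∧ (s1 e).1 - 1 ≤ p.1 ∧ p.1 ≤ (s1 e).1 + 1 ∧ (s1 e).2 - 1 ≤ p.2 ∧
        p.2 ≤ (s1 e).2 + 1 ∧ (s1 e).1 - 1 ≤ q.1 ∧ q.1 ≤ (s1 e).1 + 1 ∧ (s1 e).2 - 1 ≤ q.2 ∧
        q.2 ≤ (s1 e).2 + 1 := by
      rcases hpq with ⟨rfl, rfl⟩ | ⟨rfl, rfl⟩ <;> (refine ⟨?_, ?_, ?_, ?_, ?_, ?_, ?_, ?_, ?_, ?_, ?_, ?_⟩ <;> omega)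
    have hno : ¬ ∃ g ∈ D.R F, ((s1 e).1 - r - 1 ≤ g.1 ∧ g.1 ≤ (s1 e).1 + r + 1) ∧
        ((s1 e).2 - r - 1 ≤ g.2 ∧ g.2 ≤ (s1 e).2 + r + 1) := by
      intro hex
      obtain ⟨e', he', ⟨g1, g2⟩, g3, g4⟩ := h8 D F hF ((s1 e).1 - r - 1) ((s1 e).1 + r + 1)
        ((s1 e).2 - r - 1) ((s1 e).2 + r + 1) (r + 1 + |D.hi - D'.hi| + |D.lo - D'.lo|)
        (by omega) (by omega) (by omega) hex
        ⟨q, fun h3 => hq (hR h3), ⟨by omega, by omega⟩, by omega, by omega⟩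
      have h1 := hfar e' he'
      have h2 : sd (s1 e') (s1 e) ≤ 2 * r + 3 + |D.hi - D'.hi| + |D.lo - D'.lo| := by
        unfold sd
        apply max_le
        · rw [abs_le]; constructor <;> omega
        · rw [abs_le]; constructor <;> omega
      omega
    apply sq_le_sum hnn hr (p1 := p.1) (p2 := p.2)
    · intro z hz
      rw [Finset.mem_product, Finset.mem_Icc, Finset.mem_Icc] at hz ⊢
      refine ⟨⟨by omega, by omega⟩, by omega, by omega⟩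
    · intro z hz
      rw [Finset.mem_product, Finset.mem_Icc, Finset.mem_Icc] at hz
      apply cf_one_R hR
      · exact ⟨p, hp, ⟨by omega, by omega⟩, by omega, by omega⟩
      · rintro ⟨f, hf, ⟨e1, e2⟩, e3, e4⟩
        exact hno ⟨f, hf, ⟨by omega, by omega⟩, by omega, by omega⟩

theorem t_main (h4 : Pool.Agent.H950.ON.S_cmp) (h5 : Pool.Agent.H950.ON.S_shift)
    (h8 : Pool.Agent.H950.ON.S_con) (h9 : Pool.Agent.H950.ON.S_sum) :
    Pool.Agent.H950.ON.S_main := by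
  classical
  intro D D' v n x hq hx hnx hLe hLe' a b c d r ha hb hc1 hc2 hd1 hd2 hr
  obtain ⟨κ, hκ, hmono⟩ := h4 D D' hLe n x hq hx hnx
  obtain ⟨κ', hκ', hmono'⟩ := h4 D' (D.shift v) hLe' n x hq hx hnx
  refine ⟨κ, hκ, ?_⟩
  have hr0 : (0 : ℝ) < r := by exact_mod_cast (by omega : 0 < r)
  rw [le_div_iff₀ (by positivity)]
  obtain ⟨S, hS⟩ : ∃ S, S = Finset.Icc (a - r) b ×ˢ Finset.Icc (c - r) d := ⟨_, rfl⟩
  -- step 1
  have h1 : Kp D D' κ (Bad D D' (2 * r + 3 + |D.hi - D'.hi| + |D.lo - D'.lo|)) * (r : ℝ) ^ 2 ≤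
      ∑ F ∈ D.ins.powerset, ∑ F' ∈ D'.ins.powerset, κ F F' * ∑ z ∈ S, cf D D' r F F' z := by
    unfold Kp
    rw [Finset.sum_mul]
    apply Finset.sum_le_sum
    intro F hF
    rw [Finset.sum_mul]
    apply Finset.sum_le_sum
    intro F' hF'
    rcases eq_or_ne (κ F F') 0 with h0 | h0
    · rw [h0]; simp
    · have hcfg := R_mono hLe (hmono F (Finset.mem_powerset.1 hF) F' (Finset.mem_powerset.1 hF') h0)
      split_ifs with hbad
      · apply mul_le_mul_of_nonneg_left _ (hκ.nn F F')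
        rw [hS]
        exact count h8 hLe (Finset.mem_powerset.1 hF) (Finset.mem_powerset.1 hF') hcfg ha hb hc1
          hc2 hd1 hd2 hr hbad
      · rw [zero_mul]
        exact mul_nonneg (hκ.nn F F') (Finset.sum_nonneg fun z _ => cf_nonneg hcfg r z)
  -- step 2
  have h2 : ∑ F ∈ D.ins.powerset, ∑ F' ∈ D'.ins.powerset, κ F F' * ∑ z ∈ S, cf D D' r F F' z =
      ∑ z ∈ S, ((D'.P n x (hitR D' z r) - D.P n x (hitR D z r)) +
        (D.P n x (hitN D z r) - D'.P n x (hitN D' z r))) := by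
    have e1 : ∀ F F' : Finset Hx, κ F F' * ∑ z ∈ S, cf D D' r F F' z =
        ∑ z ∈ S, κ F F' * cf D D' r F F' z := fun F F' => Finset.mul_sum _ _ _
    simp only [e1]
    have e2 : ∀ F : Finset Hx, ∑ F' ∈ D'.ins.powerset, ∑ z ∈ S, κ F F' * cf D D' r F F' z =
        ∑ z ∈ S, ∑ F' ∈ D'.ins.powerset, κ F F' * cf D D' r F F' z := fun F => Finset.sum_comm
    simp only [e2]
    rw [Finset.sum_comm]
    refine Finset.sum_congr rfl fun z _ => ?_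
    rw [P_fst hκ (hitR D z r), P_fst hκ (hitN D z r), P_snd hκ (hitR D' z r),
      P_snd hκ (hitN D' z r), ← Finset.sum_sub_distrib, ← Finset.sum_sub_distrib,
      ← Finset.sum_add_distrib]
    refine Finset.sum_congr rfl fun F _ => ?_
    rw [← Finset.sum_sub_distrib, ← Finset.sum_sub_distrib, ← Finset.sum_add_distrib]
    refine Finset.sum_congr rfl fun F' _ => ?_
    unfold cf
    ring
  -- step 3
  have h3 : ∀ z : ℤ × ℤ, D'.P n x (hitR D' z r) ≤ D.P n x (hitR D (z.1 - v.1, z.2 - v.2) r) := by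
    intro z
    rw [← (h5 D v n x z r).1]
    apply P_mono hκ'
    rintro F hF F' hF' h0 ⟨u, hu, hu'⟩
    exact ⟨u, R_mono hLe' (hmono' F hF F' hF' h0) hu, hu'⟩
  have h3' : ∀ z : ℤ × ℤ, D.P n x (hitN D (z.1 - v.1, z.2 - v.2) r) ≤ D'.P n x (hitN D' z r) := by
    intro z
    rw [← (h5 D v n x z r).2]
    apply P_mono' hκ'
    rintro F hF F' hF' h0 ⟨u, hu, hu'⟩
    exact ⟨u, fun h3 => hu (R_mono hLe' (hmono' F hF F' hF' h0) h3), hu'⟩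
  have hlohi := D.lohi
  have hab : a - r ≤ b + 1 := by
    have e1 := ha D.lo hc1 (by omega)
    have e2 := D.lt D.lo
    have e3 := hLe.z D.lo
    have e4 := hb D.lo hc1 (by omega)
    omega
  have hcd : c - r ≤ d + 1 := by
    have e1 := D.lohi
    omega
  have h9C := h9 (fun z => D.P n x (hitR D z r)) (fun z => P_nonneg hx hq _)
    (fun z => P_le_one hx hq _) v (a - r) b (c - r) d hab hcd
  have h9D := h9 (fun z => D.P n x (hitN D z r)) (fun z => P_nonneg hx hq _)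
    (fun z => P_le_one hx hq _) v (a - r) b (c - r) d hab hcd
  rw [← hS] at h9C h9D
  have h4 : ∑ z ∈ S, ((D'.P n x (hitR D' z r) - D.P n x (hitR D z r)) +
        (D.P n x (hitN D z r) - D'.P n x (hitN D' z r))) ≤
      ∑ z ∈ S, (D.P n x (hitR D (z.1 - v.1, z.2 - v.2) r) - D.P n x (hitR D z r)) -
        ∑ z ∈ S, (D.P n x (hitN D (z.1 - v.1, z.2 - v.2) r) - D.P n x (hitN D z r)) := by
    rw [← Finset.sum_sub_distrib]
    apply Finset.sum_le_sum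
    intro z _
    have := h3 z
    have := h3' z
    linarith
  have h5' := (abs_le.1 h9C).2
  have h6' := (abs_le.1 h9D).1
  push_cast at h5' h6'
  calc _ ≤ _ := h1
    _ = _ := h2
    _ ≤ _ := h4
    _ ≤ _ := by linarith

end Pool.Agent.H323.ON
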