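import Pool.Agent.H950.ON.St

/-!
# O13: Hausdorff distance of the traces
-/

set_option autoImplicit false

namespace Pool.Agent.H984.ONtr

open Pool.Agent.X136.ON MeasureTheory TopologicalSpace
open Pool.Agent.H950.ON

theorem dist_le_re_im (z w : ℂ) : dist z w ≤ |z.re - w.re| + |z.im - w.im| := by
  rw [dist_eq_norm]
  have h := Complex.norm_le_abs_re_add_abs_im (z - w)
  rwa [Complex.sub_re, Complex.sub_im] at h

theorem sqrt3_le : √3 ≤ 7 / 4 := by
  rw [Real.sqrt_le_left (by norm_num)]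
  norm_num

theorem sqrt3_nonneg : 0 ≤ √3 := Real.sqrt_nonneg _

/-- the two ends of an edge -/
theorem edge_dist (δ : ℝ) (hδ : 0 < δ) (e : Ed) : dist (pos δ (up e)) (pos δ (dn e)) ≤ δ := by
  obtain ⟨i, j, k⟩ := e
  refine (dist_le_re_im _ _).trans ?_
  have h3 := sqrt3_le
  have h0 := sqrt3_nonneg
  cases k
  · simp only [up, dn, pos, if_true, Bool.false_eq_true, if_false]
    push_cast
    rw [show δ * ((i : ℝ) + j / 2 + 1 / 2) - δ * ((i : ℝ) + ((j : ℝ) - 1) / 2 + 1) = 0 by ring,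
      show δ * (√3 / 2 * ((j : ℝ) + 1 / 3)) - δ * (√3 / 2 * ((j : ℝ) - 1 + 2 / 3)) =
        δ * (√3 / 3) by ring, abs_zero, abs_of_nonneg (by positivity)]
    nlinarith
  · simp only [up, dn, pos, if_true, Bool.false_eq_true, if_false]
    push_cast
    rw [show δ * ((i : ℝ) + j / 2 + 1 / 2) - δ * ((i : ℝ) - 1 + (j : ℝ) / 2 + 1) = δ / 2 by ring,
      show δ * (√3 / 2 * ((j : ℝ) + 1 / 3)) - δ * (√3 / 2 * ((j : ℝ) + 2 / 3)) =
        -(δ * (√3 / 6)) by ring, abs_neg, abs_of_nonneg (by positivity),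
        abs_of_nonneg (by positivity)]
    nlinarith
  · simp only [up, dn, pos, if_true, Bool.false_eq_true, if_false]
    rw [show δ * ((i : ℝ) + j / 2 + 1 / 2) - δ * ((i : ℝ) + (j : ℝ) / 2 + 1) = -(δ / 2) by ring,
      show δ * (√3 / 2 * ((j : ℝ) + 1 / 3)) - δ * (√3 / 2 * ((j : ℝ) + 2 / 3)) =
        -(δ * (√3 / 6)) by ring, abs_neg, abs_neg, abs_of_nonneg (by positivity),
        abs_of_nonneg (by positivity)]
    nlinarith

/-- the upper ends of two close edges -/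
theorem up_dist (δ : ℝ) (hδ : 0 < δ) (e e' : Ed) (m : ℤ) (hm : 0 ≤ m)
    (h : sd (s1 e) (s1 e') ≤ m) : dist (pos δ (up e)) (pos δ (up e')) ≤ δ * (2 * m + 1) := by
  obtain ⟨i, j, k⟩ := e
  obtain ⟨i', j', k'⟩ := e'
  have hm' : (0 : ℝ) ≤ m := by exact_mod_cast hm
  have hij : |i - i'| ≤ m + 1 ∧ |j - j'| ≤ m := by
    unfold sd at h
    have h1 := (le_max_left _ _).trans h
    have h2 := (le_max_right _ _).trans h
    rw [abs_le] at h1 h2 ⊢
    rw [abs_le]
    cases k <;> cases k' <;> simp only [s1] at h1 h2 <;> omega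
  have hi : |(i : ℝ) - i'| ≤ m + 1 := by exact_mod_cast hij.1
  have hj : |(j : ℝ) - j'| ≤ m := by exact_mod_cast hij.2
  have hsq : ‖pos δ (up (i, j, k)) - pos δ (up (i', j', k'))‖ ^ 2 ≤ (δ * (2 * m + 1)) ^ 2 := by
    rw [Complex.sq_norm, Complex.normSq_apply, Complex.sub_re, Complex.sub_im]
    simp only [up, pos, Bool.false_eq_true, if_false]
    have e1 : (δ * ((i : ℝ) + j / 2 + 1 / 2) - δ * ((i' : ℝ) + j' / 2 + 1 / 2)) *
        (δ * ((i : ℝ) + j / 2 + 1 / 2) - δ * ((i' : ℝ) + j' / 2 + 1 / 2)) +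
        (δ * (√3 / 2 * ((j : ℝ) + 1 / 3)) - δ * (√3 / 2 * ((j' : ℝ) + 1 / 3))) *
        (δ * (√3 / 2 * ((j : ℝ) + 1 / 3)) - δ * (√3 / 2 * ((j' : ℝ) + 1 / 3))) =
        δ ^ 2 * (((i : ℝ) - i') ^ 2 + ((i : ℝ) - i') * ((j : ℝ) - j') + ((j : ℝ) - j') ^ 2 / 4 +
          (√3) ^ 2 / 4 * ((j : ℝ) - j') ^ 2) := by ring
    rw [e1, Real.sq_sqrt (by norm_num), mul_pow]
    refine mul_le_mul_of_nonneg_left ?_ (by positivity)
    have a1 : ((i : ℝ) - i') ^ 2 ≤ (m + 1) ^ 2 := by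
      rw [← sq_abs]
      exact pow_le_pow_left₀ (abs_nonneg _) hi 2
    have a2 : ((j : ℝ) - j') ^ 2 ≤ m ^ 2 := by
      rw [← sq_abs]
      exact pow_le_pow_left₀ (abs_nonneg _) hj 2
    have a3 : ((i : ℝ) - i') * ((j : ℝ) - j') ≤ (m + 1) * m := by
      refine (le_abs_self _).trans ?_
      rw [abs_mul]
      exact mul_le_mul hi hj (abs_nonneg _) (by positivity)
    nlinarith
  rw [dist_eq_norm]
  exact (le_abs_self _).trans (abs_le_of_sq_le_sq hsq (by positivity))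

/-- the edge at the upper marked point belongs to the path -/
theorem top_mem (D : TD) (F : Finset Hx) : ((D.w D.hi, D.hi, Dir.A) : Ed) ∈ D.Gam F := by
  have htop := D.top D.hi le_rfl
  have hlh := D.lohi
  refine ⟨?_, ?_⟩
  · rw [D.mem_E]
    refine ⟨?_, ?_, ?_, ?_⟩
    · simp only [s1]
      omega
    · simp only [s2]
      omega
    · rintro ⟨-, h2⟩
      simp only [s2, TD.W, Set.mem_ofPred_eq] at h2
      omega
    · rintro ⟨h1, -⟩
      simp only [s1, TD.Z, Set.mem_ofPred_eq] at h1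
      omega
  · intro hiff
    have hW : ((D.w D.hi, D.hi) : Hx) ∈ D.W := by
      simp [TD.W]
    have hZ : ((D.w D.hi + 1, D.hi) : Hx) ∈ D.Z := by
      simp only [TD.Z, Set.mem_ofPred_eq]
      omega
    have hC : ((D.w D.hi, D.hi) : Hx) ∈ D.C F := ⟨_, hW, Relation.ReflTransGen.refl⟩
    have h1 : ((D.w D.hi, D.hi) : Hx) ∈ D.R F := by
      rintro ⟨u, hu, hcon⟩
      rcases Relation.ReflTransGen.cases_tail hcon with heq | ⟨c, -, -, -, hc⟩
      · rw [← heq] at hu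
        simp only [TD.Z, Set.mem_ofPred_eq] at hu
        omega
      · exact hc hC
    have h2 : ((D.w D.hi + 1, D.hi) : Hx) ∉ D.R F := by
      intro hR
      exact hR ⟨_, hZ, Relation.ReflTransGen.refl⟩
    exact h2 (hiff.1 h1)

/-- one half of the estimate -/
theorem half (h3 : S_pth) (D D' : TD) (F : Finset Hx) (hF : F ⊆ D.ins) (F' : Finset Hx)
    (hF' : F' ⊆ D'.ins) (m : ℤ) (hm : 0 ≤ m) (δ : ℝ) (hδ : 0 < δ)
    (h : ∀ e ∈ D.Gam F, ∃ e' ∈ D'.Gam F', sd (s1 e) (s1 e') ≤ m) :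
    ∀ x ∈ curve δ D.a (thru (D.om F) {D.a}), ∃ y ∈ curve δ D'.a (thru (D'.om F') {D'.a}),
      dist x y ≤ δ * (2 * m + 4) := by
  have hm' : (0 : ℝ) ≤ m := by exact_mod_cast hm
  have key : ∀ e ∈ D.Gam F, ∀ x ∈ segment ℝ (pos δ (up e)) (pos δ (dn e)),
      ∃ y ∈ curve δ D'.a (thru (D'.om F') {D'.a}), dist x y ≤ δ * (2 * m + 4) := by
    intro e he x hx
    obtain ⟨e', he', hd⟩ := h e he
    refine ⟨pos δ (up e'), Or.inr ?_, ?_⟩
    · simp only [Set.mem_iUnion]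
      exact ⟨e', (((h3 D' F' hF').1 e').2 he'), left_mem_segment ℝ _ _⟩
    · have h1 : dist x (pos δ (up e)) ≤ δ := by
        have h4 := edge_dist δ hδ e
        rw [segment_eq_image'] at hx
        obtain ⟨t, ht, rfl⟩ := hx
        rw [dist_eq_norm] at h4 ⊢
        rw [add_sub_cancel_left, norm_smul, Real.norm_eq_abs, abs_of_nonneg ht.1]
        rw [norm_sub_rev] at h4
        calc t * ‖pos δ (dn e) - pos δ (up e)‖ ≤ 1 * ‖pos δ (dn e) - pos δ (up e)‖ :=
              mul_le_mul_of_nonneg_right ht.2 (norm_nonneg _)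
          _ ≤ δ := by rw [one_mul]; exact h4
      have h2 := up_dist δ hδ e e' m hm hd
      calc dist x (pos δ (up e')) ≤ dist x (pos δ (up e)) + dist (pos δ (up e)) (pos δ (up e')) :=
            dist_triangle _ _ _
        _ ≤ δ * (2 * m + 4) := by nlinarith
  rintro x (hx | hx)
  · have hx' : x = pos δ D.a := hx
    refine key _ (top_mem D F) x ?_
    rw [hx']
    exact left_mem_segment ℝ _ _
  · simp only [Set.mem_iUnion] at hx
    obtain ⟨e, he, hx⟩ := hx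
    exact key e (((h3 D F hF).1 e).1 he) x hx

theorem t_trace (h3 : Pool.Agent.H950.ON.S_pth) : Pool.Agent.H950.ON.S_trace := by
  intro D D' F hF F' hF' m δ hm hδ hB
  have hb1 : ∀ e ∈ D.Gam F, ∃ e' ∈ D'.Gam F', sd (s1 e) (s1 e') ≤ m := by
    intro e he
    by_contra hc
    refine hB (Or.inl ⟨e, he, fun e' he' => ?_⟩)
    by_contra hc'
    exact hc ⟨e', he', not_lt.1 hc'⟩
  have hb2 : ∀ e' ∈ D'.Gam F', ∃ e ∈ D.Gam F, sd (s1 e') (s1 e) ≤ m := by
    intro e' he'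
    by_contra hc
    refine hB (Or.inr ⟨e', he', fun e he => ?_⟩)
    by_contra hc'
    refine hc ⟨e, he, ?_⟩
    have h1 : sd (s1 e') (s1 e) = sd (s1 e) (s1 e') := by
      unfold sd
      rw [abs_sub_comm (s1 e').1, abs_sub_comm (s1 e').2]
    rw [h1]
    exact not_lt.1 hc'
  have hm' : (0 : ℝ) ≤ m := by exact_mod_cast hm
  rw [Metric.NonemptyCompacts.dist_eq]
  refine Metric.hausdorffDist_le_of_mem_dist (by positivity) ?_ ?_
  · exact half h3 D D' F hF F' hF' m hm δ hδ hb1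
  · exact half h3 D' D F' hF' F hF m hm δ hδ hb2

end Pool.Agent.H984.ONtr
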